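import Pool.Agent.K3h46.HP.Stm2

/-!
# The top coefficient of the power of the mixed part
-/

set_option autoImplicit false

open Finset MvPolynomial

namespace Pool.Agent.K3h90.HP

open Pool.Agent.K3h46.HP

theorem prod_mono {σ R ι : Type} [CommRing R] (s : Finset ι) (f : ι → σ →₀ ℕ) (a : ι → R) :
    ∏ r ∈ s, monomial (f r) (a r) = monomial (∑ r ∈ s, f r) (∏ r ∈ s, a r) := by
  classical
  induction s using Finset.induction_on with
  | empty => simp
  | insert x s hx ih =>
    rw [Finset.prod_insert hx, Finset.prod_insert hx, Finset.sum_insert hx, ih, monomial_mul]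

/-- the exponent -/
noncomputable def ex {N : ℕ} (q : Fin N × Fin N) : Fin (N + N) →₀ ℕ :=
  Finsupp.single (Fin.castAdd N q.1) 1 + Finsupp.single (Fin.natAdd N q.2) 1

theorem ex_sum_left {N : ℕ} (p : Fin N → Fin N × Fin N) (i : Fin N) :
    (∑ r, ex (p r)) (Fin.castAdd N i) = (univ.filter fun r => (p r).1 = i).card := by
  rw [Finsupp.finsetSum_apply, Finset.card_filter]
  refine Finset.sum_congr rfl fun r _ => ?_
  have h1 : Fin.natAdd N (p r).2 ≠ Fin.castAdd N i := by
    intro h
    have := congrArg Fin.val h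
    simp only [Fin.val_natAdd, Fin.val_castAdd] at this
    have := i.2
    omega
  unfold ex
  rw [Finsupp.add_apply, Finsupp.single_apply, Finsupp.single_apply, if_neg h1, add_zero]
  congr 1
  simp

theorem ex_sum_right {N : ℕ} (p : Fin N → Fin N × Fin N) (i : Fin N) :
    (∑ r, ex (p r)) (Fin.natAdd N i) = (univ.filter fun r => (p r).2 = i).card := by
  rw [Finsupp.finsetSum_apply, Finset.card_filter]
  refine Finset.sum_congr rfl fun r _ => ?_
  have h1 : Fin.castAdd N (p r).1 ≠ Fin.natAdd N i := by
    intro h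
    have := congrArg Fin.val h
    simp only [Fin.val_natAdd, Fin.val_castAdd] at this
    have := (p r).1.2
    omega
  unfold ex
  rw [Finsupp.add_apply, Finsupp.single_apply, Finsupp.single_apply, if_neg h1, zero_add]
  congr 1
  simp

theorem sq_univ {n : ℕ} (u : Fin n) : Pool.Agent.K3h46.HP.sq (univ : Finset (Fin n)) u = 1 := by
  unfold Pool.Agent.K3h46.HP.sq
  rw [Finsupp.finsetSum_apply, Finset.sum_eq_single u]
  · simp
  · intro v _ hv
    rw [Finsupp.single_apply, if_neg hv]
  · intro h
    exact absurd (mem_univ u) h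

theorem bij_of {N : ℕ} (f : Fin N → Fin N)
    (h : ∀ i, (univ.filter fun r => f r = i).card = 1) : Function.Bijective f := by
  rw [Finite.surjective_iff_bijective.symm]
  intro i
  obtain ⟨r, hr⟩ := Finset.card_pos.1 (by rw [h i]; exact one_pos)
  exact ⟨r, (Finset.mem_filter.1 hr).2⟩

theorem bij_card {N : ℕ} (σ : Equiv.Perm (Fin N)) (i : Fin N) :
    (univ.filter fun r => σ r = i).card = 1 := by
  rw [Finset.card_eq_one]
  refine ⟨σ.symm i, ?_⟩
  ext r
  simp [Equiv.eq_symm_apply]

theorem t_Nil2 : StmNil2 := by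
  intro X w N
  classical
  set c : Fin N → Fin N → X.A (N + N) := fun i j => X.edge w (Fin.castAdd N i) (Fin.natAdd N j)
    with hc
  have h1 : cross X w N = ∑ q : Fin N × Fin N, monomial (ex q) (c q.1 q.2) := by
    rw [Fintype.sum_prod_type]
    unfold cross
    refine Finset.sum_congr rfl fun i _ => Finset.sum_congr rfl fun j _ => ?_
    unfold ex
    rw [MvPolynomial.X, MvPolynomial.X, monomial_mul, C_mul_monomial]
    simp [hc]
  rw [h1, Fintype.sum_pow]
  have h2 : ∀ p : Fin N → Fin N × Fin N,
      ∏ r, monomial (ex (p r)) (c (p r).1 (p r).2) =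
        monomial (∑ r, ex (p r)) (∏ r, c (p r).1 (p r).2) := fun p => prod_mono _ _ _
  rw [Finset.sum_congr rfl fun p _ => h2 p, coeff_sum]
  have h3 : ∑ st : Equiv.Perm (Fin N) × Equiv.Perm (Fin N), ∏ r, c (st.1 r) (st.2 r) =
      ∑ p : Fin N → Fin N × Fin N,
        coeff (Pool.Agent.K3h46.HP.sq univ) (monomial (∑ r, ex (p r)) (∏ r, c (p r).1 (p r).2)) := by
    refine Fintype.sum_of_injective
      (fun (st : Equiv.Perm (Fin N) × Equiv.Perm (Fin N)) (r : Fin N) => (st.1 r, st.2 r))
      ?_ _ _ ?_ ?_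
    · rintro ⟨s, t⟩ ⟨s', t'⟩ h
      have h4 : s = s' := by
        ext r
        exact congrArg (fun q : Fin N × Fin N => (q.1 : ℕ)) (congrFun h r)
      have h5 : t = t' := by
        ext r
        exact congrArg (fun q : Fin N × Fin N => (q.2 : ℕ)) (congrFun h r)
      rw [h4, h5]
    · intro p hp
      rw [coeff_monomial, if_neg]
      intro heq
      apply hp
      have h4 : Function.Bijective fun r => (p r).1 := bij_of _ fun i => by
        rw [← ex_sum_left, heq, sq_univ]
      have h5 : Function.Bijective fun r => (p r).2 := bij_of _ fun i => by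
        rw [← ex_sum_right, heq, sq_univ]
      exact ⟨(Equiv.ofBijective _ h4, Equiv.ofBijective _ h5), rfl⟩
    · rintro ⟨s, t⟩
      rw [coeff_monomial, if_pos]
      ext u
      rw [sq_univ]
      refine Fin.addCases (fun i => ?_) (fun i => ?_) u
      · rw [ex_sum_left]
        exact bij_card s i
      · rw [ex_sum_right]
        exact bij_card t i
  rw [← h3, Fintype.sum_prod_type]
  have h4 : ∀ s : Equiv.Perm (Fin N), ∑ t : Equiv.Perm (Fin N), ∏ r, c (s r) (t r) =
      X.symPower w N := by
    intro s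
    unfold Powers.symPower
    rw [← Equiv.sum_comp (Equiv.mulRight s⁻¹)
      (fun t : Equiv.Perm (Fin N) => ∏ i : Fin N, X.edge w (Fin.castAdd N i) (Fin.natAdd N (t i)))]
    refine Finset.sum_congr rfl fun t _ => ?_
    rw [← Equiv.prod_comp s (fun i => X.edge w (Fin.castAdd N i)
      (Fin.natAdd N ((Equiv.mulRight s⁻¹ t) i)))]
    refine Finset.prod_congr rfl fun r _ => ?_
    simp [hc]
  rw [Finset.sum_congr rfl fun s _ => h4 s, Finset.sum_const, Finset.card_univ, Fintype.card_perm,
    Fintype.card_fin, Nat.cast_smul_eq_nsmul]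

end Pool.Agent.K3h90.HP
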